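import Mathlib
import Pool.Agent.Work.MP_d3656f_al.H.BT

/-!
# E/Ext : the boundary map exists, uniformly, and is unique

`ext_unif`. Let `C0` be from `cg_bd` (and `cg`). Fix `ξ ∈ Bd`; for `k : ℕ` let `z k` be given by
`cg_bd` with `s = 2^k`. For `j ≤ k`: `Q (z k) ξ ≤ C0 / q 1 (z k)` (as `Q base ξ = 1`), and
`q 1 (z j) ≤ C0 2^j ≤ C0 2^k ≤ C0^2 q 1 (z k)`, so
`Q ξ (z k) * (q 1 (z j))^2 ≤ C0^5 q 1 (z k)` and `shadow_conv` (with `v = base`, `x = ξ`,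
`y = pt (z k)`; monotonicity in the constant) gives `Bt (4 C0^5) base (z j) (z k)`.
By `bt`, `Bt C2 base (Φ (z j)) (Φ (z k))` for `j ≤ k`, `C2` depending only on `Φ`. Put
`y k = Φ (z k)`, `t k = q 1 (y k)` (the time coordinate of `pt (y k)`), `t k → ∞` by `qi2`.
`shadow` with `z = y j` gives for `k, k' ≥ j`
`Q (pt (y k)) (pt (y k')) (t j)^2 ≤ 4 C2 t k t k'`, i.e.
`Q (nrm (pt (y k))) (nrm (pt (y k'))) ≤ 4 C2 / (t j)^2`, so by `Q_dist` the sequence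
`nrm (pt (y k))` is Cauchy; its limit `η` has `η 2 = 1` and `Q η η = lim 1/(t k)^2 = 0`.
Passing to the limit in `t j * Q (y j) (nrm (y k)) ≤ C2 * 1` gives `Bt C2 base (y j) η`.
Let `f ξ = η`. Now let `Bt C base (pt z) ξ`. Then `q 1 z ≥ 1`; choose `j` with
`2^j ≤ q 1 z < 2^(j+1)`; both `z` and `z j` are in `Bt (max C C0) base · ξ` with comparable levels,
so `q z (z j) ≤ c` by `ratio` and `q (Φ z) (y j) ≤ A c^L` by `qi`; by `Bt_move` (with `x = x'` the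
base point) `Bt C' base (Φ z) η` where `C'` depends on `C, Φ` only.

`ext_unique`. Let `η, η'` be images of `ξ`. Let `z k` be as above; `Bt C0 base (z k) ξ`, so
`Bt C' base (Φ (z k)) η` and the same for `η'` with a common constant (`Bt_mono`). `shadow` gives
`Q η η' (q 1 (Φ (z k)))^2 ≤ 4 C'`, and `q 1 (Φ (z k)) → ∞` by `qi2`. So `Q η η' = 0`, `bd_eq`.
-/

set_option autoImplicit false

namespace Pool.Agent.Work.MP_d3656f_al

namespace Model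

variable {G : Type} [Group G] (M : Model G)

private theorem q1_eq (g : G) : Q base (M.pt g) = M.q 1 g := by
  unfold q
  rw [pt_one]

private theorem q1_two (g : G) : (M.pt g) 2 = M.q 1 g := by
  rw [← M.q1_eq, Q_base_left]

private theorem base_bd {ξ : V} (hξ : ξ ∈ Bd) : Q base ξ = 1 := by
  rw [Q_base_left]
  exact hξ.2

private theorem cone_le_one {x : V} (hx : x ∈ Cone) (h2 : x 2 = 1) :
    x ∈ Metric.closedBall (0 : V) 1 := by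
  have h1 := hx.1
  unfold Q at h1
  rw [h2] at h1
  rw [mem_closedBall_zero_iff, pi_norm_le_iff_of_nonneg zero_le_one]
  intro i
  rw [Real.norm_eq_abs]
  apply abs_le_of_sq_le_sq _ zero_le_one |>.trans le_rfl |> fun h => h
  fin_cases i
  · show (x 0) ^ 2 ≤ 1 ^ 2
    nlinarith [sq_nonneg (x 1)]
  · show (x 1) ^ 2 ≤ 1 ^ 2
    nlinarith [sq_nonneg (x 0)]
  · show (x 2) ^ 2 ≤ 1 ^ 2
    rw [h2]

/-- The level of the image tends to infinity with the level. -/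
private theorem grow (Φ : MulAut G) : ∃ A : ℝ, 1 ≤ A ∧ ∃ L : ℕ, 1 ≤ L ∧
    (∀ x y : G, M.q (Φ x) (Φ y) ≤ A * (M.q x y) ^ L) ∧
    ∀ x : G, M.q 1 x ≤ A * (M.q 1 (Φ x)) ^ L := by
  obtain ⟨A, hA, L, hL, h1, h2⟩ := M.qi2 Φ
  refine ⟨A, hA, L, hL, h1, fun x => ?_⟩
  have := h2 1 x
  rwa [map_one] at this

/-- There are orbit points converging to `ξ` whose images have arbitrarily large level. -/
private theorem far (Φ : MulAut G) : ∃ C0 : ℝ, 1 ≤ C0 ∧ ∀ ξ ∈ Bd, ∀ R : ℝ, ∃ z : G,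
    R < M.q 1 (Φ z) ∧ Bt C0 base (M.pt z) ξ := by
  obtain ⟨C0, hC0, hz⟩ := M.cg_bd
  obtain ⟨A, hA, L, hL, h1, h2⟩ := M.grow Φ
  refine ⟨C0, hC0, fun ξ hξ R => ?_⟩
  obtain ⟨R', hR', hRR⟩ : ∃ R' : ℝ, 1 ≤ R' ∧ R ≤ R' := ⟨max 1 R, le_max_left _ _, le_max_right _ _⟩
  have hs : 1 ≤ C0 * (A * R' ^ L) + 1 := by
    have : 0 ≤ C0 * (A * R' ^ L) := by positivity
    linarith
  obtain ⟨z, e1, e2, e3⟩ := hz ξ hξ _ hs
  refine ⟨z, ?_, e3⟩
  by_contra hne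
  have h3 : M.q 1 (Φ z) ≤ R' := (not_lt.1 hne).trans hRR
  have h4 : (M.q 1 (Φ z)) ^ L ≤ R' ^ L :=
    pow_le_pow_left₀ (zero_le_one.trans (M.one_le_q _ _)) h3 L
  have h5 := h2 z
  have h6 : A * (M.q 1 (Φ z)) ^ L ≤ A * R' ^ L := mul_le_mul_of_nonneg_left h4 (by linarith)
  have h7 : C0 * M.q 1 z ≤ C0 * (A * R' ^ L) :=
    mul_le_mul_of_nonneg_left (h5.trans h6) (by linarith)
  linarith

/-- The limit point. -/
private theorem lim_pt (Φ : MulAut G) {C0 C2 : ℝ} (hC0 : 1 ≤ C0) {ξ : V} (z : ℕ → G)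
    (hz1 : ∀ k, M.q 1 (z k) ≤ C0 * 2 ^ k) (hz2 : ∀ k, (2 : ℝ) ^ k ≤ C0 * M.q 1 (z k))
    (hb : ∀ j k, j ≤ k → Bt C2 base (M.pt (Φ (z j))) (M.pt (Φ (z k)))) :
    ∃ η ∈ Bd, ∀ j, Bt C2 base (M.pt (Φ (z j))) η := by
  obtain ⟨A, hA, L, hL, h1, h2⟩ := M.grow Φ
  have hmem : ∀ k, nrm (M.pt (Φ (z k))) ∈ Metric.closedBall (0 : V) 1 := fun k =>
    cone_le_one (nrm_cone (M.pt_cone _)) (nrm_two (M.pt_cone _).2)
  obtain ⟨η, hη, φ, hφ, hlim⟩ := (isCompact_closedBall (0 : V) 1).tendsto_subseq hmem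
  have hco : ∀ i : Fin 3, Filter.Tendsto (fun n => nrm (M.pt (Φ (z (φ n)))) i) Filter.atTop
      (nhds (η i)) := fun i => ((continuous_apply i).tendsto η).comp hlim
  have hQ : ∀ v : V, Filter.Tendsto (fun n => Q v (nrm (M.pt (Φ (z (φ n)))))) Filter.atTop
      (nhds (Q v η)) := by
    intro v
    unfold Q
    exact (((hco 2).const_mul _).sub ((hco 0).const_mul _)).sub ((hco 1).const_mul _)
  have hη2 : η 2 = 1 := by
    refine tendsto_nhds_unique (hco 2) ?_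
    have : (fun n => nrm (M.pt (Φ (z (φ n)))) 2) = fun _ => (1 : ℝ) := by
      funext n
      exact nrm_two (M.pt_cone _).2
    rw [this]
    exact tendsto_const_nhds
  have hself : Filter.Tendsto (fun n => Q (nrm (M.pt (Φ (z (φ n))))) (nrm (M.pt (Φ (z (φ n))))))
      Filter.atTop (nhds (Q η η)) := by
    unfold Q
    exact (((hco 2).mul (hco 2)).sub ((hco 0).mul (hco 0))).sub ((hco 1).mul (hco 1))
  -- the level tends to infinity
  have hlev : Filter.Tendsto (fun k => M.q 1 (Φ (z k))) Filter.atTop Filter.atTop := by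
    rw [Filter.tendsto_atTop]
    intro R
    obtain ⟨N, hN⟩ := pow_unbounded_of_one_lt (C0 * (A * (max 1 R) ^ L)) (one_lt_two (α := ℝ))
    filter_upwards [Filter.eventually_ge_atTop N] with k hk
    by_contra hne
    have h3 : M.q 1 (Φ (z k)) ≤ max 1 R := (not_le.1 hne).le.trans (le_max_right _ _)
    have h4 : (M.q 1 (Φ (z k))) ^ L ≤ (max 1 R) ^ L :=
      pow_le_pow_left₀ (zero_le_one.trans (M.one_le_q _ _)) h3 L
    have h6 : A * (M.q 1 (Φ (z k))) ^ L ≤ A * (max 1 R) ^ L :=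
      mul_le_mul_of_nonneg_left h4 (by linarith)
    have h7 : C0 * M.q 1 (z k) ≤ C0 * (A * (max 1 R) ^ L) :=
      mul_le_mul_of_nonneg_left ((h2 _).trans h6) (by linarith)
    have h8 : (2 : ℝ) ^ N ≤ 2 ^ k := pow_le_pow_right₀ one_le_two hk
    have h9 := hz2 k
    linarith
  have hself0 : Filter.Tendsto (fun n => Q (nrm (M.pt (Φ (z (φ n))))) (nrm (M.pt (Φ (z (φ n))))))
      Filter.atTop (nhds 0) := by
    have e : (fun n => Q (nrm (M.pt (Φ (z (φ n))))) (nrm (M.pt (Φ (z (φ n)))))) =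
        fun n => (M.q 1 (Φ (z (φ n))))⁻¹ * (M.q 1 (Φ (z (φ n))))⁻¹ := by
      funext n
      unfold nrm
      rw [Q_smul_left, Q_smul_right, (M.pt_hyp _).1, q1_two, mul_one]
    rw [e]
    have h5 : Filter.Tendsto (fun n => (M.q 1 (Φ (z (φ n))))⁻¹) Filter.atTop (nhds 0) :=
      (hlev.comp hφ.tendsto_atTop).inv_tendsto_atTop
    simpa using h5.mul h5
  have hη0 : Q η η = 0 := tendsto_nhds_unique hself hself0
  have hηB : η ∈ Bd := ⟨hη0, hη2⟩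
  refine ⟨η, hηB, fun j => ?_⟩
  unfold Bt
  rw [base_bd hηB, mul_one]
  refine le_of_tendsto ((hQ (M.pt (Φ (z j)))).const_mul (Q base (M.pt (Φ (z j))))) ?_
  filter_upwards [Filter.eventually_ge_atTop j] with n hn
  have hjn : j ≤ φ n := hn.trans (hφ.id_le n)
  have h3 := hb j (φ n) hjn
  have hpos : 0 < ((M.pt (Φ (z (φ n)))) 2)⁻¹ := inv_pos.2 (M.pt_cone _).2
  have h4 : Bt C2 base (M.pt (Φ (z j))) (nrm (M.pt (Φ (z (φ n))))) :=
    (Bt_smul_right hpos).2 h3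
  unfold Bt at h4
  rwa [Q_base_left (nrm _), nrm_two (M.pt_cone _).2, mul_one] at h4

theorem ext_unif (Φ : MulAut G) : ∃ f : V → V, (∀ ξ ∈ Bd, f ξ ∈ Bd) ∧
    ∀ C : ℝ, ∃ C' : ℝ, ∀ ξ ∈ Bd, ∀ z : G, Bt C base (M.pt z) ξ →
      Bt C' base (M.pt (Φ z)) (f ξ) := by
  obtain ⟨C0, hC0, hcg⟩ := M.cg_bd
  obtain ⟨A, hA, L, hL, hq1, hq2⟩ := M.grow Φ
  obtain ⟨C2, hC2⟩ := M.bt Φ (4 * C0 ^ 5)
  have key : ∀ ξ : V, ∃ (η : V) (z : ℕ → G), ξ ∈ Bd → η ∈ Bd ∧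
      (∀ k, M.q 1 (z k) ≤ C0 * 2 ^ k) ∧ (∀ k, (2 : ℝ) ^ k ≤ C0 * M.q 1 (z k)) ∧
      (∀ k, Bt C0 base (M.pt (z k)) ξ) ∧ ∀ j, Bt C2 base (M.pt (Φ (z j))) η := by
    intro ξ
    by_cases hξ : ξ ∈ Bd
    swap
    · exact ⟨0, fun _ => 1, fun h => absurd h hξ⟩
    have h1 : ∀ k : ℕ, ∃ z : G, M.q 1 z ≤ C0 * 2 ^ k ∧ (2 : ℝ) ^ k ≤ C0 * M.q 1 z ∧
        Bt C0 base (M.pt z) ξ := fun k => hcg ξ hξ _ (one_le_pow₀ one_le_two)
    choose z hz1 hz2 hz3 using h1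
    have hb : ∀ j k, j ≤ k → Bt C2 base (M.pt (Φ (z j))) (M.pt (Φ (z k))) := by
      intro j k hjk
      have h2 : Bt (4 * C0 ^ 5) base (M.pt (z j)) (M.pt (z k)) := by
        refine shadow_conv (x := ξ) base_hyp (M.pt_hyp _) (bd_cone hξ) (M.pt_cone _) ?_ ?_
        · refine Bt_mono ?_ (hyp_cone base_hyp) (bd_cone hξ) (hz3 j)
          exact le_self_pow₀ hC0 (by norm_num)
        · rw [base_bd hξ, one_mul, q1_eq, q1_eq]
          have h3 := hz3 k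
          unfold Bt at h3
          rw [base_bd hξ, mul_one, q1_eq, Q_symm] at h3
          have h4 : M.q 1 (z j) ≤ C0 ^ 2 * M.q 1 (z k) := by
            have h5 : (2 : ℝ) ^ j ≤ 2 ^ k := pow_le_pow_right₀ one_le_two hjk
            have h6 : C0 * 2 ^ j ≤ C0 * (C0 * M.q 1 (z k)) :=
              mul_le_mul_of_nonneg_left (h5.trans (hz2 k)) (by linarith)
            have h7 := hz1 j
            nlinarith
          have h8 : 0 < M.q 1 (z k) := zero_lt_one.trans_le (M.one_le_q _ _)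
          have h9 : 0 < M.q 1 (z j) := zero_lt_one.trans_le (M.one_le_q _ _)
          have h10 : 0 ≤ Q ξ (M.pt (z k)) := Q_nonneg (bd_cone hξ) (M.pt_cone _)
          have h11 : M.q 1 (z j) ^ 2 ≤ (C0 ^ 2 * M.q 1 (z k)) ^ 2 := pow_le_pow_left₀ h9.le h4 2
          calc Q ξ (M.pt (z k)) * M.q 1 (z j) ^ 2
              ≤ Q ξ (M.pt (z k)) * (C0 ^ 2 * M.q 1 (z k)) ^ 2 :=
                mul_le_mul_of_nonneg_left h11 h10
            _ = (M.q 1 (z k) * Q ξ (M.pt (z k))) * (C0 ^ 4 * M.q 1 (z k)) := by ring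
            _ ≤ C0 * (C0 ^ 4 * M.q 1 (z k)) :=
                mul_le_mul_of_nonneg_right h3 (by positivity)
            _ = C0 ^ 5 * M.q 1 (z k) := by ring
      have h3 := hC2 1 (z j) (z k) (by rw [pt_one]; exact h2)
      rwa [map_one, pt_one] at h3
    obtain ⟨η, hη, h2⟩ := M.lim_pt Φ hC0 (ξ := ξ) z hz1 hz2 hb
    exact ⟨η, z, fun _ => ⟨hη, hz1, hz2, hz3, h2⟩⟩
  choose f z hf using key
  refine ⟨f, fun ξ hξ => (hf ξ hξ).1, fun C => ?_⟩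
  obtain ⟨C1, hC1, hCC, hC10⟩ : ∃ C1 : ℝ, 1 ≤ C1 ∧ C ≤ C1 ∧ C0 ≤ C1 :=
    ⟨max C C0, hC0.trans (le_max_right _ _), le_max_left _ _, le_max_right _ _⟩
  refine ⟨256 * (A * (4 * C1 * (2 * C0)) ^ L) ^ 4 * C2, fun ξ hξ w hw => ?_⟩
  obtain ⟨hη, hz1, hz2, hz3, hb⟩ := hf ξ hξ
  obtain ⟨j, hj1, hj2⟩ := exists_nat_pow_near (M.one_le_q 1 w) (one_lt_two (α := ℝ))
  have h1 : Q (M.pt w) (M.pt (z ξ j)) ≤ 4 * C1 * (2 * C0) := by
    refine ratio (x := base) (y := ξ) base_hyp (M.pt_hyp _) (M.pt_hyp _) (bd_cone hξ)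
      (Bt_mono hCC (hyp_cone base_hyp) (bd_cone hξ) hw)
      (Bt_mono hC10 (hyp_cone base_hyp) (bd_cone hξ) (hz3 j)) ?_ ?_
    · rw [q1_eq, q1_eq]
      have h2 := hz2 j
      have h3 : (2 : ℝ) ^ (j + 1) = 2 * 2 ^ j := by ring
      rw [h3] at hj2
      linarith
    · rw [q1_eq, q1_eq]
      have h2 := hz1 j
      have h3 : C0 * 2 ^ j ≤ C0 * M.q 1 w := mul_le_mul_of_nonneg_left hj1 (by linarith)
      have h4 : 0 ≤ C0 * M.q 1 w := by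
        have := M.one_le_q 1 w
        positivity
      linarith
  have h2 : M.q (Φ (z ξ j)) (Φ w) ≤ A * (4 * C1 * (2 * C0)) ^ L := by
    rw [q_symm]
    refine (hq1 _ _).trans ?_
    refine mul_le_mul_of_nonneg_left ?_ (by linarith)
    exact pow_le_pow_left₀ (zero_le_one.trans (M.one_le_q _ _)) h1 L
  have h3 : 1 ≤ A * (4 * C1 * (2 * C0)) ^ L := (M.one_le_q _ _).trans h2
  exact Bt_move base_hyp base_hyp (M.pt_hyp _) (M.pt_hyp _) (bd_cone hη)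
    (by rw [base_hyp.1]; exact h3) h2 (hb j)

theorem ext_unique (Φ : MulAut G) {ξ η η' : V} (hξ : ξ ∈ Bd) (h : M.IsExt Φ ξ η)
    (h' : M.IsExt Φ ξ η') : η = η' := by
  obtain ⟨C0, hC0, hfar⟩ := M.far Φ
  obtain ⟨hη, h⟩ := h
  obtain ⟨hη', h'⟩ := h'
  obtain ⟨C1, hC1⟩ := h C0
  obtain ⟨C2, hC2⟩ := h' C0
  apply bd_eq hη hη'
  by_contra hne
  have hpos : 0 < Q η η' := lt_of_le_of_ne (Q_nonneg (bd_cone hη) (bd_cone hη')) (Ne.symm hne)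
  set C3 := max C1 C2 with hC3
  obtain ⟨z, hz1, hz2⟩ := hfar ξ hξ (max 1 (4 * C3 / Q η η'))
  have h1 := Bt_mono (le_max_left C1 C2) (hyp_cone base_hyp) (bd_cone hη) (hC1 z hz2)
  have h2 := Bt_mono (le_max_right C1 C2) (hyp_cone base_hyp) (bd_cone hη') (hC2 z hz2)
  have h3 := shadow base_hyp (M.pt_hyp _) (bd_cone hη) (bd_cone hη') h1 h2
  rw [base_bd hη, base_bd hη', mul_one, mul_one, q1_eq] at h3
  have h4 : 1 < M.q 1 (Φ z) := (le_max_left _ _).trans_lt hz1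
  have h5 : 4 * C3 / Q η η' < M.q 1 (Φ z) := (le_max_right _ _).trans_lt hz1
  rw [div_lt_iff₀ hpos] at h5
  have h6 : Q η η' * M.q 1 (Φ z) ≤ Q η η' * M.q 1 (Φ z) ^ 2 :=
    mul_le_mul_of_nonneg_left (by nlinarith) hpos.le
  linarith

theorem bd_isExt (Φ : MulAut G) {ξ : V} (hξ : ξ ∈ Bd) : M.IsExt Φ ξ (M.bd Φ ξ) := by
  obtain ⟨f, hf, h⟩ := M.ext_unif Φ
  unfold bd
  apply Classical.epsilon_spec (p := M.IsExt Φ ξ)
  refine ⟨f ξ, hf ξ hξ, fun C => ?_⟩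
  obtain ⟨C', hC'⟩ := h C
  exact ⟨C', hC' ξ hξ⟩

/-- The uniform form for the boundary map. -/
theorem bd_unif0 (Φ : MulAut G) (C : ℝ) : ∃ C' : ℝ, ∀ ξ ∈ Bd, ∀ z : G,
    Bt C base (M.pt z) ξ → Bt C' base (M.pt (Φ z)) (M.bd Φ ξ) := by
  obtain ⟨f, hf, h⟩ := M.ext_unif Φ
  obtain ⟨C', hC'⟩ := h C
  refine ⟨C', fun ξ hξ z hz => ?_⟩
  have e : M.bd Φ ξ = f ξ := by
    refine M.ext_unique Φ hξ (M.bd_isExt Φ hξ) ⟨hf ξ hξ, fun C1 => ?_⟩
    obtain ⟨C2, hC2⟩ := h C1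
    exact ⟨C2, hC2 ξ hξ⟩
  rw [e]
  exact hC' ξ hξ z hz

end Model

end Pool.Agent.Work.MP_d3656f_al
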