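import Mathlib
import Pool.Agent.Work.MP_d3656f_al.E.Ext

/-!
# E/Fun : functoriality of the boundary map

* `bd_mem`: from `bd_isExt`.
* `bd_mul`: if `η` is the image of `ξ` under `Ψ` and `ζ` the image of `η` under `Φ` then for every
  `C` there are `C'`, `C''` with `Bt C base z ξ → Bt C' base (Ψ z) η → Bt C'' base (Φ (Ψ z)) ζ`,
  so `ζ` is the image of `ξ` under `Φ * Ψ`; `ext_unique`.
* `bd_one`: clear. `bd_conj`: let `Bt C base (pt z) ξ`. By `Bt_act_bd` (with `x = 1`),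
  `Bt C (pt g) (pt (g z)) (bact g ξ)`; now `q g 1` and `q (g z) (g z g⁻¹) = q 1 g⁻¹` do not depend
  on `z`, so `Bt_move` gives `Bt C' base (pt (g z g⁻¹)) (bact g ξ)`.
* `bd_inj`, `bd_surj`: from `Φ⁻¹ * Φ = 1`.
* `bd_bact`: `Φ * conj g = conj (Φ g) * Φ`, so `bd Φ (bact g ξ) = bact (Φ g) (bd Φ ξ)`.
-/

set_option autoImplicit false

namespace Pool.Agent.Work.MP_d3656f_al

namespace Model

variable {G : Type} [Group G] (M : Model G)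

theorem bd_mem (Φ : MulAut G) {ξ : V} (hξ : ξ ∈ Bd) : M.bd Φ ξ ∈ Bd := (M.bd_isExt Φ hξ).1

theorem bd_mul (Φ Ψ : MulAut G) {ξ : V} (hξ : ξ ∈ Bd) :
    M.bd (Φ * Ψ) ξ = M.bd Φ (M.bd Ψ ξ) := by
  refine M.ext_unique (Φ * Ψ) hξ (M.bd_isExt (Φ * Ψ) hξ) ?_
  refine ⟨M.bd_mem Φ (M.bd_mem Ψ hξ), fun C => ?_⟩
  obtain ⟨C', h1⟩ := (M.bd_isExt Ψ hξ).2 C
  obtain ⟨C'', h2⟩ := (M.bd_isExt Φ (M.bd_mem Ψ hξ)).2 C'
  refine ⟨C'', fun z hz => ?_⟩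
  rw [MulAut.mul_apply]
  exact h2 _ (h1 z hz)

theorem bd_one {ξ : V} (hξ : ξ ∈ Bd) : M.bd 1 ξ = ξ := by
  refine M.ext_unique 1 hξ (M.bd_isExt 1 hξ) ⟨hξ, fun C => ⟨C, fun z hz => ?_⟩⟩
  rw [MulAut.one_apply]
  exact hz

theorem bd_conj (g : G) {ξ : V} (hξ : ξ ∈ Bd) : M.bd (MulAut.conj g) ξ = M.bact g ξ := by
  refine M.ext_unique (MulAut.conj g) hξ (M.bd_isExt _ hξ) ⟨M.bact_mem g hξ, fun C => ?_⟩
  refine ⟨256 * (max (M.q g 1) (M.q 1 g⁻¹)) ^ 4 * C, fun z hz => ?_⟩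
  have h1 : Bt C (M.pt (g * 1)) (M.pt (g * z)) (M.bact g ξ) := by
    rw [M.Bt_act_bd g 1 z hξ, M.pt_one]
    exact hz
  rw [mul_one] at h1
  rw [MulAut.conj_apply]
  refine Bt_move (M.pt_hyp g) base_hyp (M.pt_hyp (g * z)) (M.pt_hyp (g * z * g⁻¹))
    (bd_cone (M.bact_mem g hξ)) ?_ ?_ h1
  · refine le_trans (le_of_eq ?_) (le_max_left _ _)
    show Q (M.pt g) base = Q (M.pt g) (M.pt 1)
    rw [M.pt_one]
  · refine le_trans (le_of_eq ?_) (le_max_right _ _)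
    show M.q (g * z) (g * z * g⁻¹) = M.q 1 g⁻¹
    have h2 := M.q_left (g * z) 1 g⁻¹
    rw [mul_one] at h2
    exact h2

theorem bd_bact (Φ : MulAut G) (g : G) {ξ : V} (hξ : ξ ∈ Bd) :
    M.bd Φ (M.bact g ξ) = M.bact (Φ g) (M.bd Φ ξ) := by
  have h : Φ * MulAut.conj g = MulAut.conj (Φ g) * Φ := by
    ext z
    simp only [MulAut.mul_apply, MulAut.conj_apply, map_mul, map_inv]
  rw [← M.bd_conj g hξ, ← M.bd_mul Φ _ hξ, h, M.bd_mul _ _ hξ, M.bd_conj _ (M.bd_mem Φ hξ)]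

theorem bd_inj (Φ : MulAut G) {ξ η : V} (hξ : ξ ∈ Bd) (hη : η ∈ Bd) (h : M.bd Φ ξ = M.bd Φ η) :
    ξ = η := by
  have h1 := congrArg (M.bd Φ⁻¹) h
  rw [← M.bd_mul _ _ hξ, ← M.bd_mul _ _ hη, inv_mul_cancel, M.bd_one hξ, M.bd_one hη] at h1
  exact h1

theorem bd_surj (Φ : MulAut G) {η : V} (hη : η ∈ Bd) : ∃ ξ ∈ Bd, M.bd Φ ξ = η := by
  refine ⟨M.bd Φ⁻¹ η, M.bd_mem _ hη, ?_⟩
  rw [← M.bd_mul _ _ hη, mul_inv_cancel, M.bd_one hη]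

theorem bd_inv_bd (Φ : MulAut G) {ξ : V} (hξ : ξ ∈ Bd) : M.bd Φ⁻¹ (M.bd Φ ξ) = ξ := by
  rw [← M.bd_mul _ _ hξ, inv_mul_cancel, M.bd_one hξ]

theorem bd_bd_inv (Φ : MulAut G) {ξ : V} (hξ : ξ ∈ Bd) : M.bd Φ (M.bd Φ⁻¹ ξ) = ξ := by
  rw [← M.bd_mul _ _ hξ, mul_inv_cancel, M.bd_one hξ]

end Model

end Pool.Agent.Work.MP_d3656f_al
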