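import Mathlib
import Pool.Agent.Work.MP_d3656f_al.E.Fun

/-!
# E/Faith : the boundary action is faithful

Let `bd Φ ξ = ξ` for all `ξ ∈ Bd` and let `g : G`. By `bd_bact`, for `ξ ∈ Bd`:
`bact g ξ = bd Φ (bact g ξ) = bact (Φ g) (bd Φ ξ) = bact (Φ g) ξ`. So `g⁻¹ * Φ g` fixes all
points of `Bd`, e.g. `(1,0,1), (-1,0,1), (0,1,1)`, and is `1` by `three_fix`; so `Φ g = g`.
-/

set_option autoImplicit false

namespace Pool.Agent.Work.MP_d3656f_al

namespace Model

variable {G : Type} [Group G] (M : Model G)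

theorem faith {Φ : MulAut G} (h : ∀ ξ ∈ Bd, M.bd Φ ξ = ξ) : Φ = 1 := by
  ext g
  rw [MulAut.one_apply]
  have h1 : ∀ ξ ∈ Bd, M.bact (g⁻¹ * Φ g) ξ = ξ := by
    intro ξ hξ
    have h2 : M.bact g ξ = M.bact (Φ g) ξ := by
      calc M.bact g ξ = M.bd Φ (M.bact g ξ) := (h _ (M.bact_mem g hξ)).symm
        _ = M.bact (Φ g) (M.bd Φ ξ) := M.bd_bact Φ g hξ
        _ = M.bact (Φ g) ξ := by rw [h ξ hξ]
    rw [M.bact_mul _ _ hξ, ← h2, ← M.bact_mul _ _ hξ, inv_mul_cancel, M.bact_one hξ]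
  have ha : (![1, 0, 1] : V) ∈ Bd := by
    constructor
    · simp [Q]
    · simp
  have hb : (![-1, 0, 1] : V) ∈ Bd := by
    constructor
    · simp [Q]
    · simp
  have hc : (![0, 1, 1] : V) ∈ Bd := by
    constructor
    · simp [Q]
    · simp
  have hab : (![1, 0, 1] : V) ≠ ![-1, 0, 1] := by
    intro he
    have h2 := congrFun he 0
    simp at h2
    norm_num at h2
  have hbc : (![-1, 0, 1] : V) ≠ ![0, 1, 1] := by
    intro he
    have h2 := congrFun he 0
    simp at h2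
  have hac : (![1, 0, 1] : V) ≠ ![0, 1, 1] := by
    intro he
    have h2 := congrFun he 0
    simp at h2
  have h3 := M.three_fix ha hb hc hab hbc hac (h1 _ ha) (h1 _ hb) (h1 _ hc)
  exact (inv_mul_eq_one.1 h3).symm

end Model

end Pool.Agent.Work.MP_d3656f_al
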