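import Mathlib
import Pool.Agent.Work.MP_d3656f_al.E.Fun

/-!
# E/Cont : continuity of the boundary map

`bd_unif`: uniform continuity. Let `C0` be from `cg_bd`. For `ξ, ξ' ∈ Bd` and `s ≥ 1` let `z` be
from `cg_bd` for `ξ, s`: `Bt C0 base z ξ`, `s / C0 ≤ q 1 z ≤ C0 s`. If
`Q ξ ξ' ≤ 1 / (C0 s^2)` then `Q ξ ξ' (q 1 z)^2 ≤ C0`, so `Bt (4 C0) base z ξ'` by `shadow_conv`
(`Q base ξ = Q base ξ' = 1`). By `bd_unif0` (uniform constant `C'`) and `shadow`,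
`Q (bd ξ) (bd ξ') (q 1 (Φ z))^2 ≤ 4 C'`, and `q 1 z ≤ A (q 1 (Φ z))^L` (`qi2`), so
`q 1 (Φ z)` is as large as we like when `s` is large.
`bd_cont`: from `bd_unif` and `Q_bd` (`Q` is half the square of the distance).
`bd_seq`: let `nrm (pt (v k)) → a ∈ Bd`. Then the time coordinate `t k = q 1 (v k)` tends to
infinity (`Q (nrm (pt v)) (nrm (pt v)) = 1 / t^2` and `Q` is continuous, `Q a a = 0`). Let `z`
with `Bt C0 base z a` and `q 1 z` large (fixed). `Q a (nrm (pt (v k))) → Q a a = 0`, so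
for `k` large `Q a (nrm (v k)) (q 1 z)^2 ≤ C0`, so `Bt (4 C0) base z (v k)` (`shadow_conv` and
`Bt_smul_right`). By `bt`: `Bt C' base (Φ z) (Φ (v k))`, by `bd_unif0`:
`Bt C' base (Φ z) (bd Φ a)`; `shadow`: `Q (nrm (pt (Φ (v k)))) (bd Φ a) ≤ 4 C' / (q 1 (Φ z))^2`,
and `Q_dist`.
`bt_pb`: `Bt C (pt x) (pt z) y` with `y ∈ Bd` is equivalent to
`Bt C base (pt (x⁻¹ z)) (bact x⁻¹ y)` (`Bt_act_bd`); `bd_unif0` gives
`Bt C' base (pt (Φ (x⁻¹ z))) (bd Φ (bact x⁻¹ y))`, where `bd Φ (bact x⁻¹ y) = bact (Φ x)⁻¹ (bd Φ y)`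
by `bd_bact`; translate by `Φ x`.
`bt_bb`: translate `z` to `1` (`Bt_act_bd2`, `bd_bact`): we have `Q x y ≥ 1 / C` and must bound
`Q (bd Φ x) (bd Φ y)` from below by a constant: this is `bd_unif` for `Φ⁻¹` (contrapositive).
-/

set_option autoImplicit false

namespace Pool.Agent.Work.MP_d3656f_al

namespace Model

variable {G : Type} [Group G] (M : Model G)

private theorem q1_eq' (g : G) : Q base (M.pt g) = M.q 1 g := by
  unfold q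
  rw [pt_one]

private theorem base_bd' {ξ : V} (hξ : ξ ∈ Bd) : Q base ξ = 1 := by
  rw [Q_base_left]
  exact hξ.2

private theorem Q_le_dist {x y : V} (hx : x ∈ Bd) (hy : y ∈ Bd) : Q x y ≤ dist x y ^ 2 := by
  rw [Q_bd hx hy]
  have h : ∀ i : Fin 3, (x i - y i) ^ 2 ≤ dist x y ^ 2 := by
    intro i
    have h1 : |x i - y i| ≤ dist x y := by
      rw [← Real.dist_eq]
      exact dist_le_pi_dist x y i
    calc (x i - y i) ^ 2 = |x i - y i| ^ 2 := (sq_abs _).symm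
      _ ≤ dist x y ^ 2 := pow_le_pow_left₀ (abs_nonneg _) h1 2
  have h0 := h 0
  have h1 := h 1
  linarith

private theorem dist_le_Q {x y : V} (hx : x ∈ Cone) (hy : y ∈ Cone) (h1 : x 2 = 1)
    (h2 : y 2 = 1) : dist x y ^ 2 ≤ 2 * Q x y := by
  have h3 := Q_dist hx hy h1 h2
  have h4 := Q_nonneg hx hy
  have h5 : dist x y ≤ Real.sqrt (2 * Q x y) := by
    rw [dist_pi_le_iff (Real.sqrt_nonneg _)]
    intro i
    rw [Real.dist_eq]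
    apply Real.le_sqrt_of_sq_le
    rw [sq_abs]
    fin_cases i
    · show (x 0 - y 0) ^ 2 ≤ _
      nlinarith [sq_nonneg (x 1 - y 1)]
    · show (x 1 - y 1) ^ 2 ≤ _
      nlinarith [sq_nonneg (x 0 - y 0)]
    · show (x 2 - y 2) ^ 2 ≤ _
      rw [h1, h2]
      linarith
  calc dist x y ^ 2 ≤ (Real.sqrt (2 * Q x y)) ^ 2 := pow_le_pow_left₀ dist_nonneg h5 2
    _ = 2 * Q x y := Real.sq_sqrt (by linarith)

/-- A level which forces the level of the image to be large. -/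
private theorem lev (Φ : MulAut G) {C0 : ℝ} (hC0 : 1 ≤ C0) (R : ℝ) : ∃ s : ℝ, 1 ≤ s ∧
    ∀ z : G, s ≤ C0 * M.q 1 z → R < M.q 1 (Φ z) := by
  obtain ⟨A, hA, L, hL, h1, h2⟩ := M.qi2 Φ
  obtain ⟨R', hR', hRR⟩ : ∃ R' : ℝ, 1 ≤ R' ∧ R ≤ R' := ⟨max 1 R, le_max_left _ _, le_max_right _ _⟩
  have h0 : 0 ≤ C0 * (A * R' ^ L) := by positivity
  refine ⟨C0 * (A * R' ^ L) + 1, by linarith, fun z hz => ?_⟩
  by_contra hne
  have h3 : M.q 1 (Φ z) ≤ R' := (not_lt.1 hne).trans hRR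
  have h4 : (M.q 1 (Φ z)) ^ L ≤ R' ^ L :=
    pow_le_pow_left₀ (zero_le_one.trans (M.one_le_q _ _)) h3 L
  have h5 : M.q 1 z ≤ A * (M.q 1 (Φ z)) ^ L := by
    have := h2 1 z
    rwa [map_one] at this
  have h6 : A * (M.q 1 (Φ z)) ^ L ≤ A * R' ^ L := mul_le_mul_of_nonneg_left h4 (by linarith)
  have h7 : C0 * M.q 1 z ≤ C0 * (A * R' ^ L) :=
    mul_le_mul_of_nonneg_left (h5.trans h6) (by linarith)
  linarith

/-- The estimate used three times. -/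
private theorem small {C ε t : ℝ} {x y : V} (hε : 0 < ε) (hx : x ∈ Cone) (hy : y ∈ Cone)
    (ht : max 1 (4 * C / ε) < t) (h : Q x y * t ^ 2 ≤ 4 * C) : Q x y < ε := by
  have h1 : 1 < t := (le_max_left _ _).trans_lt ht
  have h2 : 4 * C / ε < t := (le_max_right _ _).trans_lt ht
  rw [div_lt_iff₀ hε] at h2
  by_contra hne
  have h3 : ε ≤ Q x y := not_lt.1 hne
  have h4 : ε * t ^ 2 ≤ Q x y * t ^ 2 := mul_le_mul_of_nonneg_right h3 (by positivity)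
  have h5 : t * ε ≤ ε * t ^ 2 := by nlinarith [mul_pos hε (by linarith : 0 < t)]
  linarith

theorem bd_unif (Φ : MulAut G) (ε : ℝ) (hε : 0 < ε) : ∃ δ : ℝ, 0 < δ ∧ ∀ ξ ∈ Bd, ∀ ξ' ∈ Bd,
    Q ξ ξ' < δ → Q (M.bd Φ ξ) (M.bd Φ ξ') < ε := by
  obtain ⟨C0, hC0, hcg⟩ := M.cg_bd
  obtain ⟨C1, hC1⟩ := M.bd_unif0 Φ (4 * C0)
  obtain ⟨s, hs, hs1⟩ := M.lev Φ hC0 (max 1 (4 * C1 / ε))
  refine ⟨1 / (C0 * s ^ 2), by positivity, fun ξ hξ ξ' hξ' hQ => ?_⟩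
  obtain ⟨z, e1, e2, e3⟩ := hcg ξ hξ s hs
  have h1 : Bt (4 * C0) base (M.pt z) ξ :=
    Bt_mono (by linarith) (hyp_cone base_hyp) (bd_cone hξ) e3
  have h2 : Bt (4 * C0) base (M.pt z) ξ' := by
    refine shadow_conv base_hyp (M.pt_hyp _) (bd_cone hξ) (bd_cone hξ') e3 ?_
    rw [base_bd' hξ, base_bd' hξ', mul_one, mul_one, q1_eq']
    have h3 : M.q 1 z ^ 2 ≤ (C0 * s) ^ 2 :=
      pow_le_pow_left₀ (zero_le_one.trans (M.one_le_q _ _)) e1 2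
    have h4 : Q ξ ξ' * M.q 1 z ^ 2 ≤ 1 / (C0 * s ^ 2) * (C0 * s) ^ 2 :=
      mul_le_mul hQ.le h3 (by positivity) (by positivity)
    refine h4.trans (le_of_eq ?_)
    field_simp
  have h5 := shadow base_hyp (M.pt_hyp _) (bd_cone (M.bd_mem Φ hξ)) (bd_cone (M.bd_mem Φ hξ'))
    (hC1 ξ hξ z h1) (hC1 ξ' hξ' z h2)
  rw [base_bd' (M.bd_mem Φ hξ), base_bd' (M.bd_mem Φ hξ'), mul_one, mul_one, q1_eq'] at h5
  exact small hε (bd_cone (M.bd_mem Φ hξ)) (bd_cone (M.bd_mem Φ hξ')) (hs1 z e2) h5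

theorem bd_cont (Φ : MulAut G) : ContinuousOn (M.bd Φ) Bd := by
  rw [Metric.continuousOn_iff]
  intro b hb ε hε
  obtain ⟨δ, hδ, h⟩ := M.bd_unif Φ (ε ^ 2 / 2) (by positivity)
  refine ⟨Real.sqrt δ, Real.sqrt_pos.2 hδ, fun a ha hab => ?_⟩
  have h1 : Q a b < δ := by
    refine (Q_le_dist ha hb).trans_lt ?_
    calc dist a b ^ 2 < Real.sqrt δ ^ 2 := pow_lt_pow_left₀ hab dist_nonneg (by norm_num)
      _ = δ := Real.sq_sqrt hδ.le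
  have h2 := h a ha b hb h1
  have ma := M.bd_mem Φ ha
  have mb := M.bd_mem Φ hb
  have h3 := dist_le_Q (bd_cone ma) (bd_cone mb) ma.2 mb.2
  exact lt_of_pow_lt_pow_left₀ 2 hε.le (by linarith)

theorem bd_seq (Φ : MulAut G) (v : ℕ → G) {a : V} (ha : a ∈ Bd)
    (h : Filter.Tendsto (fun k => nrm (M.pt (v k))) Filter.atTop (nhds a)) :
    Filter.Tendsto (fun k => nrm (M.pt (Φ (v k)))) Filter.atTop (nhds (M.bd Φ a)) := by
  rw [Metric.tendsto_nhds]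
  intro ε hε
  obtain ⟨C0, hC0, hcg⟩ := M.cg_bd
  obtain ⟨C1, hC1⟩ := M.bt Φ (4 * C0)
  obtain ⟨C2, hC2⟩ := M.bd_unif0 Φ C0
  set C3 := max C1 C2 with hC3
  obtain ⟨s, hs, hs1⟩ := M.lev Φ hC0 (max 1 (4 * C3 / (ε ^ 2 / 2)))
  obtain ⟨z, e1, e2, e3⟩ := hcg a ha s hs
  have hco : ∀ i : Fin 3, Filter.Tendsto (fun n => nrm (M.pt (v n)) i) Filter.atTop
      (nhds (a i)) := fun i => ((continuous_apply i).tendsto a).comp h
  have hQ : Filter.Tendsto (fun n => Q a (nrm (M.pt (v n)))) Filter.atTop (nhds 0) := by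
    have h1 : Filter.Tendsto (fun n => Q a (nrm (M.pt (v n)))) Filter.atTop (nhds (Q a a)) := by
      unfold Q
      exact (((hco 2).const_mul _).sub ((hco 0).const_mul _)).sub ((hco 1).const_mul _)
    rwa [ha.1] at h1
  have hq0 : 0 < M.q 1 z := zero_lt_one.trans_le (M.one_le_q _ _)
  have hev : ∀ᶠ n in Filter.atTop, Q a (nrm (M.pt (v n))) < C0 / M.q 1 z ^ 2 :=
    hQ.eventually_lt_const (by positivity)
  filter_upwards [hev] with k hk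
  have hpc := M.pt_cone (v k)
  have hpos : 0 < ((M.pt (v k)) 2)⁻¹ := inv_pos.2 hpc.2
  have h1 : Bt (4 * C0) base (M.pt z) (nrm (M.pt (v k))) := by
    refine shadow_conv base_hyp (M.pt_hyp _) (bd_cone ha) (nrm_cone hpc) e3 ?_
    rw [base_bd' ha, Q_base_left (nrm _), nrm_two hpc.2, mul_one, mul_one, q1_eq']
    rw [lt_div_iff₀ (by positivity)] at hk
    exact hk.le
  have h2 : Bt (4 * C0) base (M.pt z) (M.pt (v k)) := (Bt_smul_right hpos).1 h1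
  have h3 := hC1 1 z (v k) (by rw [pt_one]; exact h2)
  rw [map_one, pt_one] at h3
  have hpc' := M.pt_cone (Φ (v k))
  have hpos' : 0 < ((M.pt (Φ (v k))) 2)⁻¹ := inv_pos.2 hpc'.2
  have h4 : Bt C1 base (M.pt (Φ z)) (nrm (M.pt (Φ (v k)))) := (Bt_smul_right hpos').2 h3
  have mb := M.bd_mem Φ ha
  have h5 := shadow base_hyp (M.pt_hyp _) (nrm_cone hpc') (bd_cone mb)
    (Bt_mono (le_max_left C1 C2) (hyp_cone base_hyp) (nrm_cone hpc') h4)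
    (Bt_mono (le_max_right C1 C2) (hyp_cone base_hyp) (bd_cone mb) (hC2 a ha z e3))
  rw [base_bd' mb, Q_base_left (nrm _), nrm_two hpc'.2, mul_one, mul_one, q1_eq'] at h5
  have h6 := small (by positivity) (nrm_cone hpc') (bd_cone mb) (hs1 z e2) h5
  have h7 := dist_le_Q (nrm_cone hpc') (bd_cone mb) (nrm_two hpc'.2) mb.2
  exact lt_of_pow_lt_pow_left₀ 2 hε.le (by linarith)

theorem bt_pb (Φ : MulAut G) (C : ℝ) : ∃ C' : ℝ, ∀ x z : G, ∀ y ∈ Bd,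
    Bt C (M.pt x) (M.pt z) y → Bt C' (M.pt (Φ x)) (M.pt (Φ z)) (M.bd Φ y) := by
  obtain ⟨C', hC'⟩ := M.bd_unif0 Φ C
  refine ⟨C', fun x z y hy h => ?_⟩
  have h1 := (M.Bt_act_bd x⁻¹ x z hy).2 h
  rw [inv_mul_cancel, pt_one] at h1
  have h2 := hC' _ (M.bact_mem x⁻¹ hy) _ h1
  rw [M.bd_bact Φ x⁻¹ hy, map_mul] at h2
  refine (M.Bt_act_bd (Φ x⁻¹) (Φ x) (Φ z) (M.bd_mem Φ hy)).1 ?_
  rw [← map_mul, inv_mul_cancel, map_one, pt_one]
  exact h2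

theorem bt_bb (Φ : MulAut G) (C : ℝ) : ∃ C' : ℝ, ∀ z : G, ∀ x ∈ Bd, ∀ y ∈ Bd,
    Bt C x (M.pt z) y → Bt C' (M.bd Φ x) (M.pt (Φ z)) (M.bd Φ y) := by
  obtain ⟨δ, hδ, hu⟩ := M.bd_unif Φ⁻¹ (1 / max C 1) (by positivity)
  refine ⟨1 / δ, fun z x hx y hy h => ?_⟩
  have h1 := (M.Bt_act_bd2 z⁻¹ z hx hy).2 h
  have mx := M.bact_mem z⁻¹ hx
  have my := M.bact_mem z⁻¹ hy
  rw [inv_mul_cancel, pt_one] at h1
  unfold Bt at h1
  rw [Q_symm _ base, base_bd' mx, base_bd' my, mul_one] at h1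
  refine (M.Bt_act_bd2 (Φ z⁻¹) (Φ z) (M.bd_mem Φ hx) (M.bd_mem Φ hy)).1 ?_
  rw [← map_mul, inv_mul_cancel, map_one, pt_one, ← M.bd_bact Φ z⁻¹ hx, ← M.bd_bact Φ z⁻¹ hy]
  have nx := M.bd_mem Φ mx
  have ny := M.bd_mem Φ my
  unfold Bt
  rw [Q_symm _ base, base_bd' nx, base_bd' ny, mul_one]
  by_contra hne
  have h2 : Q (M.bd Φ (M.bact z⁻¹ x)) (M.bd Φ (M.bact z⁻¹ y)) < δ := by
    rw [not_le, one_div, inv_mul_lt_iff₀ hδ, mul_one] at hne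
    exact hne
  have h3 := hu _ nx _ ny h2
  rw [M.bd_inv_bd Φ mx, M.bd_inv_bd Φ my, lt_div_iff₀ (by positivity)] at h3
  have h4 : 0 ≤ Q (M.bact z⁻¹ x) (M.bact z⁻¹ y) := Q_nonneg (bd_cone mx) (bd_cone my)
  have h5 : C * Q (M.bact z⁻¹ x) (M.bact z⁻¹ y) ≤
      max C 1 * Q (M.bact z⁻¹ x) (M.bact z⁻¹ y) :=
    mul_le_mul_of_nonneg_right (le_max_left _ _) h4
  linarith

end Model

end Pool.Agent.Work.MP_d3656f_al
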